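import Pool.Agent.Y569.UN.Polish

/-!
# Universally null sets not covered by null `F_σ` sets: every Polish space and every measure
-/

set_option autoImplicit false

open Set Filter Topology Cardinal MeasureTheory

namespace Pool.Agent.Results.MP_4d4d44_lc.EveryMeasure

/-- An `F_σ` set: a union of countably many closed sets. -/
def IsFSigma {X : Type} [TopologicalSpace X] (F : Set X) : Prop :=
  ∃ C : ℕ → Set X, (∀ n, IsClosed (C n)) ∧ F = ⋃ n, C n

/-- `μ` is a finite non-atomic measure: `μ X < ∞` and `μ {x} = 0` for every `x`. -/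
def FiniteNonAtomic {X : Type} [MeasurableSpace X] (μ : Measure X) : Prop :=
  μ univ < ⊤ ∧ ∀ x, μ {x} = 0

/-- `A` is universally null: `A` has outer `μ`-measure `0` for every finite non-atomic Borel
measure `μ` (Mathlib's `μ A` is the outer measure for an arbitrary set `A`). -/
def UniversallyNull {X : Type} [MeasurableSpace X] (A : Set X) : Prop :=
  ∀ μ : Measure X, FiniteNonAtomic μ → μ A = 0

/-- `A` is countably perfectly null: for every finite non-atomic Borel measure `μ` there is an
`F_σ` set `F ⊇ A` with `μ F = 0`. -/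
def CountablyPerfectlyNull {X : Type} [TopologicalSpace X] [MeasurableSpace X] (A : Set X) : Prop :=
  ∀ μ : Measure X, FiniteNonAtomic μ → ∃ F : Set X, IsFSigma F ∧ A ⊆ F ∧ μ F = 0

/-- `#A` is at most the maximum of the two cardinals `non(𝒩)` and `𝔟`: it is at most the size of
`T` or of `𝓕`, for every non-null set `T` of reals and every `≤*`-unbounded family `𝓕` of
functions. -/
def AtMostMaxNonB {X : Type} (A : Set X) : Prop :=
  ∀ T : Set ℝ, volume T ≠ 0 → ∀ 𝓕 : Set (ℕ → ℕ),
    (∀ g : ℕ → ℕ, ∃ f ∈ 𝓕, ¬ ∀ᶠ n in atTop, f n ≤ g n) → #A ≤ max #T #𝓕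

theorem atMost_of {X : Type} {A : Set X} (h : Pool.Agent.Y569.UN.Sm A) : AtMostMaxNonB A := by
  intro T hT 𝓕 h𝓕
  obtain ⟨n, hn⟩ : ∃ n : ℤ, volume (T ∩ Icc (n : ℝ) (n + 1)) ≠ 0 := by
    by_contra hcon
    push Not at hcon
    refine hT (measure_mono_null ?_ (measure_iUnion_null hcon))
    intro x hx
    exact mem_iUnion.2 ⟨⌊x⌋, hx, Int.floor_le x, (Int.lt_floor_add_one x).le⟩
  have hν : FiniteNonAtomic ((volume : Measure ℝ).restrict (Icc (n : ℝ) (n + 1))) := by
    refine ⟨?_, fun x => ?_⟩
    · rw [Measure.restrict_apply_univ, Real.volume_Icc]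
      exact ENNReal.ofReal_lt_top
    · exact le_antisymm ((Measure.restrict_apply_le _ _).trans (measure_singleton x).le) zero_le
  set g : ℝ → ℕ → Bool := MeasurableSpace.mapNatBool ℝ with hg
  have hgm : Measurable g := MeasurableSpace.measurable_mapNatBool ℝ
  have hgi : Function.Injective g := MeasurableSpace.injective_mapNatBool ℝ
  set ν := ((volume : Measure ℝ).restrict (Icc (n : ℝ) (n + 1))) with hνd
  have hν' : Pool.Agent.Y569.UN.FNA (ν.map g) := by
    refine ⟨?_, fun v => ?_⟩
    · rw [Measure.map_apply hgm MeasurableSet.univ, preimage_univ]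
      exact hν.1
    · rw [Measure.map_apply hgm (measurableSet_singleton v)]
      have hsub : (g ⁻¹' {v}).Subsingleton := fun a ha b hb => hgi (ha.trans hb.symm)
      rcases hsub.eq_empty_or_singleton with h | ⟨a, h⟩
      · rw [h, measure_empty]
      · rw [h]; exact hν.2 a
  have hT' : (ν.map g) (g '' T) ≠ 0 := by
    intro h0
    have h1 : ν T = 0 := le_antisymm ((Measure.le_map_apply_image hgm.aemeasurable T).trans h0.le)
      zero_le
    rw [hνd, Measure.restrict_apply' measurableSet_Icc] at h1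
    exact hn h1
  exact (h (g '' T) _ hν' hT' 𝓕 h𝓕).trans (max_le_max Cardinal.mk_image_le le_rfl)

/-- (1) Let `X` be a Polish space and `μ` a finite non-atomic Borel measure on `X`. There is a
universally null set `A` of size at most `max(non(𝒩), 𝔟)` such that for every open set `V` with
`μ V ≠ 0` every `F_σ` set `F ⊇ A ∩ V` satisfies `μ (F ∩ V) ≠ 0`. (2) In every uncountable Polish
space some universally null set (of this size) is not countably perfectly null. (3) No set works in
(1) for all measures: if `A` is universally null and `μ ≠ 0`, then for some finite non-atomic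
`μ' ≤ μ`, `μ' ≠ 0`, the set `A` is contained in an `F_σ` set (even an open one) of `μ'`-measure
`0`. (4) For the Cantor space and Lebesgue measure on the line as special cases: some universally
null set of points of `2^ℕ` is not countably perfectly null; some universally null set of reals is
not covered by countably many closed sets of Lebesgue measure zero. -/
theorem result :
    (∀ (X : Type) [TopologicalSpace X] [PolishSpace X] [MeasurableSpace X] [BorelSpace X],
      (∀ μ : Measure X, FiniteNonAtomic μ → ∃ A : Set X, UniversallyNull A ∧ AtMostMaxNonB A ∧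
        ∀ V F : Set X, IsOpen V → μ V ≠ 0 → IsFSigma F → A ∩ V ⊆ F → μ (F ∩ V) ≠ 0) ∧
      (¬ Countable X → ∃ A : Set X, UniversallyNull A ∧ AtMostMaxNonB A ∧
        ¬ CountablyPerfectlyNull A) ∧
      (∀ A : Set X, UniversallyNull A → ∀ μ : Measure X, FiniteNonAtomic μ → μ ≠ 0 →
        ∃ μ' : Measure X, μ' ≤ μ ∧ μ' ≠ 0 ∧ FiniteNonAtomic μ' ∧
          ∃ F : Set X, IsOpen F ∧ IsFSigma F ∧ A ⊆ F ∧ μ' F = 0)) ∧
    (∃ A : Set (ℕ → Bool), UniversallyNull A ∧ ¬ CountablyPerfectlyNull A) ∧
    (∃ A : Set ℝ, UniversallyNull A ∧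
      ∀ C : ℕ → Set ℝ, (∀ n, IsClosed (C n)) → (∀ n, volume (C n) = 0) → ¬ A ⊆ ⋃ n, C n) := by
  have h1 : ∀ (X : Type) [TopologicalSpace X] [PolishSpace X] [MeasurableSpace X] [BorelSpace X],
      ∀ μ : Measure X, FiniteNonAtomic μ → ∃ A : Set X, UniversallyNull A ∧ AtMostMaxNonB A ∧
        ∀ V F : Set X, IsOpen V → μ V ≠ 0 → IsFSigma F → A ∩ V ⊆ F → μ (F ∩ V) ≠ 0 := by
    intro X _ _ _ _ μ hμ
    obtain ⟨A, hA1, hA2, hA3⟩ := Pool.Agent.Y569.UN.everywhere μ hμ
    exact ⟨A, hA1, atMost_of hA2, hA3⟩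
  have h2 : ∀ (X : Type) [TopologicalSpace X] [PolishSpace X] [MeasurableSpace X] [BorelSpace X],
      ¬ Countable X → ∃ A : Set X, UniversallyNull A ∧ AtMostMaxNonB A ∧
        ¬ CountablyPerfectlyNull A := by
    intro X _ _ _ _ hX
    have hR : ¬ Countable ℝ := by
      rw [← Cardinal.mk_le_aleph0_iff, Cardinal.mk_real, not_le]
      exact Cardinal.aleph0_lt_continuum
    let f : ℝ ≃ᵐ X := PolishSpace.measurableEquivOfNotCountable hR hX
    have hν : FiniteNonAtomic (((volume : Measure ℝ).restrict (Icc 0 1)).map f) := by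
      refine ⟨?_, fun y => ?_⟩
      · rw [f.map_apply]
        simp
      · rw [f.map_apply]
        have : f ⁻¹' {y} = {f.symm y} := by
          ext x
          simp only [mem_preimage, mem_singleton_iff]
          exact ⟨fun h => by rw [← h, f.symm_apply_apply], fun h => by rw [h, f.apply_symm_apply]⟩
        rw [this]
        exact le_antisymm ((Measure.restrict_apply_le _ _).trans (measure_singleton _).le) zero_le
    obtain ⟨A, hA1, hA2, hA3⟩ := h1 X _ hν
    refine ⟨A, hA1, hA2, fun hcon => ?_⟩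
    obtain ⟨F, hF1, hF2, hF3⟩ := hcon _ hν
    refine hA3 univ F isOpen_univ ?_ hF1 (inter_subset_left.trans hF2) (by rw [inter_univ]; exact hF3)
    rw [f.map_apply]
    simp
  refine ⟨fun X _ _ _ _ => ⟨h1 X, h2 X, ?_⟩, ?_, ?_⟩
  · intro A hA μ hμ hμ0
    obtain ⟨μ', h3, h4, h5, F, hF1, hF2, hF3⟩ := Pool.Agent.Y569.UN.notAll hA μ hμ hμ0
    refine ⟨μ', h3, h4, h5, F, hF1, ?_, hF2, hF3⟩
    obtain ⟨f, hf, hfF⟩ := isGδ_iff_eq_iInter_nat.1 hF1.isClosed_compl.isGδ
    refine ⟨fun n => (f n)ᶜ, fun n => (hf n).isClosed_compl, ?_⟩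
    rw [← compl_iInter, ← hfF, compl_compl]
  · have hX : ¬ Countable (ℕ → Bool) := by
      rw [← Cardinal.mk_le_aleph0_iff, not_le]
      simpa using Cardinal.cantor ℵ₀
    haveI : PolishSpace (ℕ → Bool) := by
      haveI : ∀ _ : ℕ, PolishSpace Bool := fun _ => inferInstance
      infer_instance
    obtain ⟨A, hA1, _, hA2⟩ := h2 (ℕ → Bool) hX
    exact ⟨A, hA1, hA2⟩
  · have hν : FiniteNonAtomic ((volume : Measure ℝ).restrict (Icc 0 1)) := by
      refine ⟨by simp, fun x => ?_⟩
      exact le_antisymm ((Measure.restrict_apply_le _ _).trans (measure_singleton _).le) zero_le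
    obtain ⟨A, hA1, _, hA3⟩ := h1 ℝ _ hν
    refine ⟨A, hA1, fun C hC hC0 hsub => ?_⟩
    refine hA3 univ (⋃ n, C n) isOpen_univ (by simp) ⟨C, hC, rfl⟩ (inter_subset_left.trans hsub) ?_
    rw [inter_univ]
    exact le_antisymm ((Measure.restrict_apply_le _ _).trans (measure_iUnion_null hC0).le) zero_le

end Pool.Agent.Results.MP_4d4d44_lc.EveryMeasure
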